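import Mathlib
import Pool.Agent.V1152.ParentTree

/-!
# Distance packing domination in trees: the bound fails for every `p ≥ 6`

The tree has a centre, `m = 2 d` paths of length two from the centre to vertices `v_i`, and at each
`v_i` six pendant paths (legs) with `d - 1` vertices. A vertex outside a leg of `v_i` which is within
distance `d` of the end of the leg is at distance at most one from `v_i`; two such vertices are at
distance at most six, so a `p`-packing with `p ≥ 6` contains at most one of them, and the legs at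
all other `v_i` need a vertex each.
-/

set_option autoImplicit false

namespace Pool.Agent.Results.MP_bde484_co.BroomTrees

open Finset Pool.Agent.V1152.ParentTree

/-- `X` is a `d`-distance dominating set of `G`. -/
def IsDistDominating {V : Type} (G : SimpleGraph V) (d : ℕ) (X : Finset V) : Prop :=
  ∀ u, u ∉ X → ∃ x ∈ X, G.dist u x ≤ d

/-- `X` is a `p`-packing of `G`. -/
def IsPacking {V : Type} (G : SimpleGraph V) (p : ℕ) (X : Finset V) : Prop :=
  ∀ u ∈ X, ∀ v ∈ X, u ≠ v → p + 1 ≤ G.dist u v

/-- The `d`-distance `p`-packing domination number: the least size of a set which is both a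
`d`-distance dominating set and a `p`-packing. -/
noncomputable def gammaPacking {V : Type} (G : SimpleGraph V) (d p : ℕ) : ℕ :=
  sInf {k | ∃ X : Finset V, IsDistDominating G d X ∧ IsPacking G p X ∧ X.card = k}

theorem exists_valid {V : Type} [Fintype V] (G : SimpleGraph V) {d p : ℕ} (hpd : p ≤ d) :
    ∃ X : Finset V, IsDistDominating G d X ∧ IsPacking G p X := by
  classical
  have hne : (univ.filter fun X : Finset V => IsPacking G p X).Nonempty :=
    ⟨∅, by simp [IsPacking]⟩
  obtain ⟨X, hX, hmax⟩ := exists_max_image _ Finset.card hne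
  rw [mem_filter] at hX
  refine ⟨X, fun u hu => ?_, hX.2⟩
  by_contra hcon
  push Not at hcon
  have hpack : IsPacking G p (insert u X) := by
    intro a ha b hb hab
    rw [mem_insert] at ha hb
    rcases ha with rfl | ha
    · rcases hb with rfl | hb
      · exact absurd rfl hab
      · have := hcon b hb
        omega
    · rcases hb with rfl | hb
      · have := hcon a ha
        rw [SimpleGraph.dist_comm]
        omega
      · exact hX.2 a ha b hb hab
  have := hmax (insert u X) (by simp [hpack])
  rw [card_insert_of_notMem hu] at this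
  omega

/-! ### The trees -/

/-- The vertices: the centre, the vertices `u_i` and `v_i`, and the vertices of the legs. -/
abbrev Vtx (m s l : ℕ) : Type := Option ((Fin m ⊕ Fin m) ⊕ (Fin m × Fin s × Fin l))

section

variable {m s l : ℕ}

/-- The vertex `u_i`. -/
def vu (i : Fin m) : Vtx m s l := some (Sum.inl (Sum.inl i))

/-- The vertex `v_i`. -/
def vv (i : Fin m) : Vtx m s l := some (Sum.inl (Sum.inr i))

/-- The vertex number `k` of the leg `j` at `v_i`. -/
def leg (i : Fin m) (j : Fin s) (k : Fin l) : Vtx m s l := some (Sum.inr (i, j, k))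

/-- The parent function. -/
def par : Vtx m s l → Vtx m s l
  | none => none
  | some (Sum.inl (Sum.inl _)) => none
  | some (Sum.inl (Sum.inr i)) => vu i
  | some (Sum.inr (i, j, k)) =>
    if k.1 = 0 then vv i else leg i j ⟨k.1 - 1, lt_of_le_of_lt (Nat.sub_le _ _) k.2⟩

/-- The distance from the centre. -/
def rk : Vtx m s l → ℕ
  | none => 0
  | some (Sum.inl (Sum.inl _)) => 1
  | some (Sum.inl (Sum.inr _)) => 2
  | some (Sum.inr (_, _, k)) => 3 + k.1

/-- The tree. -/
def tree (m s l : ℕ) : SimpleGraph (Vtx m s l) := parentGraph none par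

theorem rk_par (x : Vtx m s l) (hx : x ≠ none) : rk (par x) < rk x := by
  rcases x with _ | ((i | i) | ⟨i, j, k⟩)
  · exact absurd rfl hx
  · simp [par, rk]
  · simp [par, rk, vu]
  · by_cases hk : k.1 = 0
    · simp [par, hk, rk, vv]
    · simp only [par, hk, if_false, rk, leg]
      omega

theorem tree_isTree : (tree m s l).IsTree := isTree none par rk rk_par

theorem tree_adj_iff {x y : Vtx m s l} :
    (tree m s l).Adj x y ↔ x ≠ y ∧ ((x ≠ none ∧ par x = y) ∨ (y ≠ none ∧ par y = x)) := by
  rw [tree, parentGraph, SimpleGraph.fromRel_adj]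

theorem adj_cases {x y : Vtx m s l} (h : (tree m s l).Adj x y) :
    (x ≠ none ∧ par x = y) ∨ (y ≠ none ∧ par y = x) := (tree_adj_iff.1 h).2

theorem adj_par {x : Vtx m s l} (hx : x ≠ none) : (tree m s l).Adj x (par x) :=
  adj_parent rk_par hx

theorem dist_vv_le (i i' : Fin m) : (tree m s l).dist (vv i) (vv i') ≤ 4 := by
  have h1 : ∀ i : Fin m, (tree m s l).dist (vv i) none ≤ 2 := by
    intro i
    have a1 : (tree m s l).Adj (vv i) (vu i) := adj_par (x := vv i) (by simp [vv])
    have a2 : (tree m s l).Adj (vu i) none := adj_par (x := vu i) (by simp [vu])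
    have e1 := SimpleGraph.dist_eq_one_iff_adj.2 a1
    have e2 := SimpleGraph.dist_eq_one_iff_adj.2 a2
    have := (tree_isTree (m := m) (s := s) (l := l)).connected.dist_triangle
      (u := vv i) (v := vu i) (w := none)
    omega
  have := (tree_isTree (m := m) (s := s) (l := l)).connected.dist_triangle
    (u := vv i) (v := none) (w := vv i')
  have e1 := h1 i
  have e2 := h1 i'
  rw [SimpleGraph.dist_comm] at e2
  omega

/-- The index of the branch of a vertex. -/
def br : Vtx m s l → Option (Fin m)
  | none => none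
  | some (Sum.inl (Sum.inl i)) => some i
  | some (Sum.inl (Sum.inr i)) => some i
  | some (Sum.inr (i, _, _)) => some i

theorem dist_vv_ge {i i' : Fin m} (h : i ≠ i') : 4 ≤ (tree m s l).dist (vv i) (vv i') := by
  set ψ : Vtx m s l → ℤ := fun x => if br x = some i then -(rk x : ℤ) else (rk x : ℤ) with hψ
  have hrk : ∀ x : Vtx m s l, x ≠ none → rk (par x) + 1 = rk x := by
    intro x hx
    rcases x with _ | ((a | a) | ⟨a, b, k⟩)
    · exact absurd rfl hx
    · simp [par, rk]
    · simp [par, rk, vu]
    · by_cases hk : k.1 = 0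
      · simp [par, hk, rk, vv]
      · simp only [par, hk, if_false, rk, leg]
        omega
  have hbr : ∀ x : Vtx m s l, x ≠ none → br (par x) = br x ∨ rk (par x) = 0 := by
    intro x hx
    rcases x with _ | ((a | a) | ⟨a, b, k⟩)
    · exact absurd rfl hx
    · right; simp [par, rk]
    · left; simp [par, br, vu]
    · left
      by_cases hk : k.1 = 0
      · simp [par, hk, br, vv]
      · simp only [par, hk, if_false, br, leg]
  have hstep : ∀ x : Vtx m s l, x ≠ none → ψ (par x) ≤ ψ x + 1 ∧ ψ x ≤ ψ (par x) + 1 := by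
    intro x hx
    have h1 := hrk x hx
    rcases hbr x hx with h2 | h2
    · simp only [hψ, h2]
      split_ifs <;> constructor <;> omega
    · simp only [hψ, h2]
      split_ifs <;> constructor <;> omega
  have hl : ∀ a b, (tree m s l).Adj a b → ψ b ≤ ψ a + 1 := by
    intro a b hab
    rcases adj_cases hab with ⟨h1, h2⟩ | ⟨h1, h2⟩
    · rw [← h2]
      exact (hstep a h1).1
    · rw [← h2]
      exact (hstep b h1).2
  have := le_dist (tree_isTree (m := m) (s := s) (l := l)).connected ψ hl (vv i) (vv i')
  have e1 : ψ (vv i) = -2 := by simp [hψ, br, rk, vv]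
  have e2 : ψ (vv i') = 2 := by
    have : ¬ (i' = i) := fun h' => h h'.symm
    simp [hψ, br, rk, vv, this]
  rw [e1, e2] at this
  omega

/-- A vertex within distance `l + 1` of the end of the leg `j` at `v_i` lies in this leg or is at
distance at most one from `v_i`. -/
theorem near_end (i : Fin m) (j : Fin s) (e : Fin l) (he : e.1 = l - 1) (x : Vtx m s l)
    (hx : (tree m s l).dist (leg i j e) x ≤ l + 1) :
    (∃ k, x = leg i j k) ∨ (tree m s l).dist (vv i) x ≤ 1 := by
  classical
  by_contra hcon
  push Not at hcon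
  obtain ⟨hx1, hx2⟩ := hcon
  have hl : 0 < l := lt_of_le_of_lt (Nat.zero_le _) e.2
  set φ : Vtx m s l → ℤ := fun y =>
    match y with
    | some (Sum.inr (a, b, k)) =>
      if a = i ∧ b = j then (l : ℤ) - 1 - k.1
        else (l : ℤ) + (tree m s l).dist (vv i) (some (Sum.inr (a, b, k)))
    | y => (l : ℤ) + (tree m s l).dist (vv i) y with hφ
  have hφleg : ∀ k, φ (leg i j k) = (l : ℤ) - 1 - k.1 := by
    intro k
    simp [hφ, leg]
  have hφout : ∀ y, (∀ k, y ≠ leg i j k) → φ y = (l : ℤ) + (tree m s l).dist (vv i) y := by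
    intro y hy
    rcases y with _ | ((a | a) | ⟨a, b, k⟩)
    · rfl
    · rfl
    · rfl
    · simp only [hφ]
      rw [if_neg]
      rintro ⟨rfl, rfl⟩
      exact hy k rfl
  have hd : ∀ a b, (tree m s l).Adj a b →
      (tree m s l).dist (vv i) b ≤ (tree m s l).dist (vv i) a + 1 := by
    intro a b hab
    have h1 := (tree_isTree (m := m) (s := s) (l := l)).connected.dist_triangle
      (u := vv i) (v := a) (w := b)
    rw [SimpleGraph.dist_eq_one_iff_adj.2 hab] at h1
    exact h1
  have hstep : ∀ y : Vtx m s l, y ≠ none → φ (par y) ≤ φ y + 1 ∧ φ y ≤ φ (par y) + 1 := by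
    intro y hy
    by_cases hleg : ∃ k, y = leg i j k
    · obtain ⟨k, rfl⟩ := hleg
      rw [hφleg]
      by_cases hk : k.1 = 0
      · have hp : par (leg i j k) = (vv i : Vtx m s l) := by simp [par, leg, hk]
        rw [hp, hφout (vv i) (by intro k; simp [vv, leg]), SimpleGraph.dist_self]
        constructor <;> push_cast <;> omega
      · have hp : par (leg i j k) =
            (leg i j ⟨k.1 - 1, lt_of_le_of_lt (Nat.sub_le _ _) k.2⟩ : Vtx m s l) := by
          simp [par, leg, hk]
        rw [hp, hφleg]
        simp only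
        constructor <;> omega
    · push Not at hleg
      have hpar : ∀ k, par y ≠ leg i j k := by
        intro k hk
        rcases y with _ | ((a | a) | ⟨a, b, k'⟩)
        · exact hy rfl
        · simp [par, leg] at hk
        · simp [par, vu, leg] at hk
        · by_cases hk0 : k'.1 = 0
          · simp [par, hk0, vv, leg] at hk
          · simp only [par, hk0, if_false, leg, Option.some.injEq, Sum.inr.injEq,
              Prod.mk.injEq] at hk
            obtain ⟨rfl, rfl, -⟩ := hk
            exact hleg k' rfl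
      rw [hφout y hleg, hφout _ hpar]
      have h1 := hd y (par y) (adj_par hy)
      have h2 := hd (par y) y (adj_par hy).symm
      constructor <;> omega
  have hlip : ∀ a b, (tree m s l).Adj a b → φ b ≤ φ a + 1 := by
    intro a b hab
    rcases adj_cases hab with ⟨h1, h2⟩ | ⟨h1, h2⟩
    · rw [← h2]
      exact (hstep a h1).1
    · rw [← h2]
      exact (hstep b h1).2
  have := le_dist (tree_isTree (m := m) (s := s) (l := l)).connected φ hlip (leg i j e) x
  rw [hφleg, hφout x hx1] at this
  push_cast at this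
  omega

theorem card_ge {d p : ℕ} (hd : d = l + 1) (hl : 0 < l) (hp : 6 ≤ p) (X : Finset (Vtx m s l))
    (hX : IsDistDominating (tree m s l) d X) (hX' : IsPacking (tree m s l) p X) :
    (m - 1) * s ≤ X.card := by
  classical
  set e : Fin l := ⟨l - 1, by omega⟩ with he
  have hconn := (tree_isTree (m := m) (s := s) (l := l)).connected
  -- at most one cluster has an efficient member
  have huniq : ∀ i i' : Fin m, (∃ x ∈ X, (tree m s l).dist (vv i) x ≤ 1) →
      (∃ x ∈ X, (tree m s l).dist (vv i') x ≤ 1) → i = i' := by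
    rintro i i' ⟨x, hx, hxi⟩ ⟨x', hx', hxi'⟩
    by_contra hii
    have h4 := dist_vv_ge (m := m) (s := s) (l := l) hii
    have h4' := dist_vv_le (m := m) (s := s) (l := l) i i'
    by_cases hxx : x = x'
    · subst hxx
      have := hconn.dist_triangle (u := vv i) (v := x) (w := vv i')
      rw [SimpleGraph.dist_comm (u := x)] at this
      omega
    · have h1 := hX' x hx x' hx' hxx
      have h2 := hconn.dist_triangle (u := x) (v := vv i) (w := x')
      have h3 := hconn.dist_triangle (u := vv i) (v := vv i') (w := x')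
      rw [SimpleGraph.dist_comm (u := x) (v := vv i)] at h2
      omega
  have hlegs : ∀ i : Fin m, (¬ ∃ x ∈ X, (tree m s l).dist (vv i) x ≤ 1) →
      ∀ j : Fin s, ∃ k, leg i j k ∈ X := by
    intro i hi j
    by_cases hmem : leg i j e ∈ X
    · exact ⟨e, hmem⟩
    · obtain ⟨x, hx, hxd⟩ := hX _ hmem
      rcases near_end i j e rfl x (by omega) with ⟨k, rfl⟩ | h
      · exact ⟨k, hx⟩
      · exact absurd ⟨x, hx, h⟩ hi
  obtain ⟨I, hI, hIcard⟩ : ∃ I : Finset (Fin m),
      (∀ i ∈ I, ¬ ∃ x ∈ X, (tree m s l).dist (vv i) x ≤ 1) ∧ m - 1 ≤ I.card := by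
    by_cases h : ∃ i : Fin m, ∃ x ∈ X, (tree m s l).dist (vv i) x ≤ 1
    · obtain ⟨i0, hi0⟩ := h
      refine ⟨univ.erase i0, fun i hi hcon => ?_, ?_⟩
      · exact (mem_erase.1 hi).1 (huniq i i0 hcon hi0)
      · rw [card_erase_of_mem (mem_univ _), card_univ, Fintype.card_fin]
    · push Not at h
      refine ⟨univ, fun i _ hcon => ?_, by simp⟩
      obtain ⟨x, hx, hx1⟩ := hcon
      have := h i x hx
      omega
  have hch : ∀ q : Fin m × Fin s, ∃ k : Fin l, q.1 ∈ I → leg q.1 q.2 k ∈ X := by
    intro q
    by_cases hq : q.1 ∈ I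
    · obtain ⟨k, hk⟩ := hlegs q.1 (hI _ hq) q.2
      exact ⟨k, fun _ => hk⟩
    · exact ⟨e, fun h => absurd h hq⟩
  choose κ hκ using hch
  have hinj : ((I ×ˢ (univ : Finset (Fin s))).image fun q => leg q.1 q.2 (κ q)) ⊆ X := by
    intro x hx
    obtain ⟨q, hq, rfl⟩ := mem_image.1 hx
    exact hκ q (mem_product.1 hq).1
  have hcard := card_le_card hinj
  rw [card_image_of_injOn, card_product, card_univ, Fintype.card_fin] at hcard
  · calc (m - 1) * s ≤ I.card * s := Nat.mul_le_mul_right _ hIcard
      _ ≤ X.card := hcard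
  · intro a _ b _ hab
    simp only [leg, Option.some.injEq, Sum.inr.injEq, Prod.mk.injEq] at hab
    exact Prod.ext hab.1 hab.2.1

theorem card_vtx : Fintype.card (Vtx m s l) = 1 + 2 * m + m * s * l := by
  simp only [Fintype.card_option, Fintype.card_sum, Fintype.card_prod, Fintype.card_fin]
  ring

end

/-- The bound `γ_d^p(T) ≤ (n - 2 √n + d + 1) / d` does not hold for all `3 ≤ p ≤ d` and all trees;
in fact, for all `p, d` with `6 ≤ p ≤ d` there is a tree `T` of order `n` with
`γ_d^p(T) > (n - 2 √n + d + 1) / d`. -/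
theorem result :
    (¬ ∀ p d : ℕ, 3 ≤ p → p ≤ d → ∀ (V : Type) [Fintype V] (T : SimpleGraph V), T.IsTree →
      (gammaPacking T d p : ℝ) ≤
        ((Fintype.card V : ℝ) - 2 * Real.sqrt (Fintype.card V) + d + 1) / d) ∧
    ∀ p d : ℕ, 6 ≤ p → p ≤ d → ∃ (V : Type) (_ : Fintype V) (T : SimpleGraph V), T.IsTree ∧
      (∃ X : Finset V, IsDistDominating T d X ∧ IsPacking T p X) ∧
      ((Fintype.card V : ℝ) - 2 * Real.sqrt (Fintype.card V) + d + 1) / d <
        (gammaPacking T d p : ℝ) := by
  have main : ∀ p d : ℕ, 6 ≤ p → p ≤ d → ∃ (V : Type) (_ : Fintype V) (T : SimpleGraph V),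
      T.IsTree ∧ (∃ X : Finset V, IsDistDominating T d X ∧ IsPacking T p X) ∧
      ((Fintype.card V : ℝ) - 2 * Real.sqrt (Fintype.card V) + d + 1) / d <
        (gammaPacking T d p : ℝ) := by
    intro p d hp hpd
    obtain ⟨l, rfl⟩ : ∃ l, d = l + 1 := ⟨d - 1, by omega⟩
    have hl : 0 < l := by omega
    refine ⟨Vtx (2 * (l + 1)) 6 l, inferInstance, tree _ _ _, tree_isTree,
      exists_valid _ hpd, ?_⟩
    have hne : {k | ∃ X : Finset (Vtx (2 * (l + 1)) 6 l),
        IsDistDominating (tree (2 * (l + 1)) 6 l) (l + 1) X ∧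
        IsPacking (tree (2 * (l + 1)) 6 l) p X ∧ X.card = k}.Nonempty := by
      obtain ⟨X, h1, h2⟩ := exists_valid (tree (2 * (l + 1)) 6 l) hpd
      exact ⟨_, X, h1, h2, rfl⟩
    obtain ⟨X, h1, h2, h3⟩ := Nat.sInf_mem hne
    have hcard := card_ge rfl hl hp X h1 h2
    have h4 : (2 * (l + 1) - 1) * 6 ≤ gammaPacking (tree (2 * (l + 1)) 6 l) (l + 1) p := by
      rw [gammaPacking, ← h3]
      exact hcard
    have h5 : 12 * l + 6 ≤ gammaPacking (tree (2 * (l + 1)) 6 l) (l + 1) p := by omega
    have h6 : (12 * (l : ℝ) + 6) ≤ (gammaPacking (tree (2 * (l + 1)) 6 l) (l + 1) p : ℝ) := by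
      exact_mod_cast h5
    refine lt_of_lt_of_le ?_ h6
    have hl1 : (5 : ℝ) ≤ l := by
      have : 5 ≤ l := by omega
      exact_mod_cast this
    have hs := Real.sqrt_nonneg (Fintype.card (Vtx (2 * (l + 1)) 6 l) : ℝ)
    rw [div_lt_iff₀ (by positivity)]
    have hc : ((Fintype.card (Vtx (2 * (l + 1)) 6 l) : ℕ) : ℝ) =
        1 + 2 * (2 * (l + 1)) + 2 * (l + 1) * 6 * l := by
      rw [card_vtx]
      push_cast
      ring
    have hs' : (Fintype.card (Vtx (2 * (l + 1)) 6 l) : ℝ) -
        2 * Real.sqrt (Fintype.card (Vtx (2 * (l + 1)) 6 l) : ℝ) ≤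
        1 + 2 * (2 * (l + 1)) + 2 * (l + 1) * 6 * l := by
      rw [← hc]
      linarith
    push_cast
    nlinarith
  refine ⟨fun hall => ?_, main⟩
  obtain ⟨V, _, T, hT, -, hlt⟩ := main 6 6 le_rfl le_rfl
  have := hall 6 6 (by norm_num) le_rfl V T hT
  linarith

end Pool.Agent.Results.MP_bde484_co.BroomTrees
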